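import Pool.Agent.W788.NW.Stm

set_option autoImplicit false

namespace Pool.Agent.W274.NW

open Finset Pool.Agent.W788.NV Pool.Agent.W788.NW

variable {V : Type} [Fintype V] [DecidableEq V] {q : ℕ}

/-- indicator of a configuration -/
def ind (y : V → Fin q) : (V → Fin q) → ℝ := fun x => if x = y then 1 else 0

theorem hit_eq (k : (V → Fin q) → ℝ) (y : V → Fin q) :
    hit k y = fun Φ : Mp V q => ∑ x, k x * (fun Φ : Mp V q => ind y (Φ x)) Φ := by
  funext Φ
  unfold hit ind
  refine sum_congr rfl fun x _ => ?_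
  simp only
  by_cases h : Φ x = y
  · rw [if_pos h, if_pos h, mul_one]
  · rw [if_neg h, if_neg h, mul_zero]

theorem expand (h : MK) (h3 : S_EVG) (r : (V × Fin q) ⊕ (V × V) → ℝ) (t : ℝ)
    (k : (V → Fin q) → ℝ) (y : V → Fin q) :
    sg r (mR (V := V) (q := q)) t (hit k y) id =
      ∑ x, k x * sg r (act (V := V) (q := q)) t (ind y) x := by
  rw [hit_eq, h.lin]
  refine sum_congr rfl fun x _ => ?_
  rw [(h3 V q r t).1 (ind y) x]

theorem sum_ind (y x : V → Fin q) (v : V) :
    ∑ c, ind y (Function.update x v c) = ∑ c, ind (Function.update y v c) x := by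
  unfold ind
  have h1 : ∀ c, (Function.update x v c = y ↔ c = y v ∧ ∀ w, w ≠ v → x w = y w) := by
    intro c
    constructor
    · intro h
      refine ⟨by rw [← h]; simp, fun w hw => ?_⟩
      rw [← h, Function.update_of_ne hw]
    · rintro ⟨rfl, h⟩
      funext w
      by_cases hw : w = v
      · subst hw; simp
      · rw [Function.update_of_ne hw]; exact h w hw
  have h2 : ∀ c, (x = Function.update y v c ↔ c = x v ∧ ∀ w, w ≠ v → x w = y w) := by
    intro c
    constructor
    · intro h
      refine ⟨by rw [h]; simp, fun w hw => ?_⟩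
      rw [h, Function.update_of_ne hw]
    · rintro ⟨rfl, h⟩
      funext w
      by_cases hw : w = v
      · subst hw; simp
      · rw [Function.update_of_ne hw]; exact h w hw
  simp only [h1, h2]
  by_cases h : ∀ w, w ≠ v → x w = y w
  · have e1 : ∀ c, (c = y v ∧ ∀ w, w ≠ v → x w = y w) ↔ c = y v := fun c => and_iff_left h
    have e2 : ∀ c, (c = x v ∧ ∀ w, w ≠ v → x w = y w) ↔ c = x v := fun c => and_iff_left h
    simp only [e1, e2, Finset.sum_ite_eq', Finset.mem_univ, if_true]
  · have e1 : ∀ c, (c = y v ∧ ∀ w, w ≠ v → x w = y w) ↔ False := fun c =>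
      ⟨fun h' => h h'.2, False.elim⟩
    have e2 : ∀ c, (c = x v ∧ ∀ w, w ≠ v → x w = y w) ↔ False := fun c =>
      ⟨fun h' => h h'.2, False.elim⟩
    simp only [e1, e2, if_false, Finset.sum_const_zero]

theorem fe_ (h : MK) (h1 : S_FEA) (h2 : S_NR) (h3 : S_EVG) (h4 : S_LAW) (h5 : S_GEN)
    (h6 : S_TOT) : S_FE := by
  intro V _ _ G q θ Δ η S ω hy x0 x v c t ht
  have hq1 : 1 ≤ q := by have := hy.q2; omega
  obtain ⟨l1, l2, _⟩ := h4 V G q θ hq1 hy.t0 hy.t1.le hy.d1
  obtain ⟨m1, m2⟩ := h6 V G q θ hq1 hy.t0.le hy.t1.le hy.d1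
  set ν := law G q θ x0 (t - 1) with hν
  have hν0 : ∀ z, 0 ≤ ν z := (l1 x0 (t - 1) (by linarith)).1
  -- the law at time `t`
  have hlaw : ∀ y, law G q θ x0 t y =
      sg (mrate G q θ) (mR (V := V) (q := q)) 1 (hit ν y) id := by
    intro y
    have e1 : law G q θ x0 t y = mean (law G q θ x0 t) (ind y) := by
      unfold mean ind
      simp
    rw [e1, l2, expand h h3]
    unfold pt
    have e2 : t = (t - 1) + 1 := by ring
    rw [e2, h.add]
    have e3 := l2 x0 (t - 1) (sg (mrate G q θ) (act (V := V) (q := q)) 1 (ind y))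
    unfold pt mean at e3
    have e4 : (t - 1) + 1 - 1 = t - 1 := by ring
    rw [← e3]
  -- nonnegative rates
  have hr0 : ∀ e, 0 ≤ rv G q θ v 0 e := by
    intro e
    rcases e with p | p
    · exact m1 (Sum.inl p)
    · change 0 ≤ (if p.2 = v then 0 * mrate G q θ (Sum.inr p) else mrate G q θ (Sum.inr p))
      split_ifs
      · simp
      · exact m1 (Sum.inr p)
  have hrle : ∀ e, rv G q θ v 0 e ≤ mrate G q θ e := by
    intro e
    rcases e with p | p
    · exact le_refl _
    · change (if p.2 = v then 0 * mrate G q θ (Sum.inr p) else mrate G q θ (Sum.inr p)) ≤ _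
      split_ifs
      · rw [zero_mul]; exact m1 (Sum.inr p)
      · exact le_refl _
  have hsum : (∑ e, if site e = v then rv G q θ v 0 e else 0) ≤ 1 := by
    have e1 := m2 (fun w => if w = v then 1 else 0)
    have e2 : ∑ w, (if w = v then (1 : ℝ) else 0) = 1 := by simp
    rw [e2] at e1
    rw [← e1]
    apply sum_le_sum
    intro e _
    split_ifs
    · rw [mul_one]; exact hrle e
    · simp
  have hexp : 0 < 1 - Real.exp (-1) := by
    have : Real.exp (-1) < 1 := by rw [Real.exp_lt_one_iff]; norm_num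
    linarith
  have hqpos : (0 : ℝ) < q := by exact_mod_cast hq1
  have hNR : ∀ y z : V → Fin q, θ / q * (1 - Real.exp (-1)) *
      ∑ c, sg (rv G q θ v 0) (act (V := V) (q := q)) 1 (ind (Function.update y v c)) z ≤
      sg (rv G q θ v 0) (act (V := V) (q := q)) 1 (ind y) z := by
    intro y z
    have e1 := h2 V q (rv G q θ v 0) v (θ / q) hr0 (fun c => rfl) (fun w => by
      change (if v = v then 0 * mrate G q θ (Sum.inr (w, v)) else mrate G q θ (Sum.inr (w, v))) = 0
      simp) hsum (ind y) 1 z (fun w => by unfold ind; split_ifs <;> norm_num) zero_le_one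
    have e2 : (fun x' : V → Fin q => ∑ c, ind y (Function.update x' v c)) =
        fun x' => ∑ c, (1 : ℝ) * ind (Function.update y v c) x' := by
      funext x'
      rw [sum_ind]
      simp
    rw [e2, h.lin] at e1
    simpa using e1
  -- nonnegativity of indicators under the semigroup
  have hpos : ∀ y z : V → Fin q, 0 ≤ sg (rv G q θ v 0) (act (V := V) (q := q)) 1 (ind y) z := by
    intro y z
    have e1 := h.mono (V → Fin q) ((V × Fin q) ⊕ (V × V)) (rv G q θ v 0) (act (V := V) (q := q))
      (fun _ => 0) (ind y) z 1 hr0 zero_le_one (fun w => by unfold ind; split_ifs <;> norm_num)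
    rwa [h.cst] at e1
  have hNR1 : ∀ y : V → Fin q, ∀ c : Fin q, θ / q * (1 - Real.exp (-1)) *
      sg (rv G q θ v 0) (mR (V := V) (q := q)) 1 (hit ν (Function.update y v c)) id ≤
      sg (rv G q θ v 0) (mR (V := V) (q := q)) 1 (hit ν y) id := by
    intro y c
    rw [expand h h3, expand h h3, mul_sum]
    apply sum_le_sum
    intro z _
    have e1 := hNR y z
    have e2 : sg (rv G q θ v 0) (act (V := V) (q := q)) 1 (ind (Function.update y v c)) z ≤
        ∑ c, sg (rv G q θ v 0) (act (V := V) (q := q)) 1 (ind (Function.update y v c)) z :=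
      single_le_sum (f := fun c => sg (rv G q θ v 0) (act (V := V) (q := q)) 1
        (ind (Function.update y v c)) z) (fun c' _ => hpos _ _) (mem_univ c)
    have e3 : 0 ≤ θ / q * (1 - Real.exp (-1)) := by
      have := hy.t0
      positivity
    calc θ / q * (1 - Real.exp (-1)) *
        (ν z * sg (rv G q θ v 0) (act (V := V) (q := q)) 1 (ind (Function.update y v c)) z)
        = ν z * (θ / q * (1 - Real.exp (-1)) *
          sg (rv G q θ v 0) (act (V := V) (q := q)) 1 (ind (Function.update y v c)) z) := by ring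
      _ ≤ ν z * (θ / q * (1 - Real.exp (-1)) *
          ∑ c, sg (rv G q θ v 0) (act (V := V) (q := q)) 1 (ind (Function.update y v c)) z) :=
          mul_le_mul_of_nonneg_left (mul_le_mul_of_nonneg_left e2 e3) (hν0 z)
      _ ≤ _ := mul_le_mul_of_nonneg_left e1 (hν0 z)
  obtain ⟨a1, _⟩ := h1 V G q θ Δ η S ω hy ν (Function.update x v c) v hν0
  obtain ⟨_, b2⟩ := h1 V G q θ Δ η S ω hy ν x v hν0
  rw [hlaw, hlaw]
  have c1 := hNR1 x c
  set g1u := sg (mrate G q θ) (mR (V := V) (q := q)) 1 (hit ν (Function.update x v c)) id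
  set g0u := sg (rv G q θ v 0) (mR (V := V) (q := q)) 1 (hit ν (Function.update x v c)) id
  set g1x := sg (mrate G q θ) (mR (V := V) (q := q)) 1 (hit ν x) id
  set g0x := sg (rv G q θ v 0) (mR (V := V) (q := q)) 1 (hit ν x) id
  have ht0 := hy.t0
  set E := Real.exp (Δ * (2 * q / θ * (1 + η) * S))
  have hE : 0 < E := Real.exp_pos _
  have d1 : g0u ≤ q / (θ * (1 - Real.exp (-1))) * g0x := by
    have e1 : q / (θ * (1 - Real.exp (-1))) * (θ / q * (1 - Real.exp (-1))) = 1 := by
      field_simp
    have e2 : 0 ≤ q / (θ * (1 - Real.exp (-1))) := by positivity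
    calc g0u = q / (θ * (1 - Real.exp (-1))) * (θ / q * (1 - Real.exp (-1)) * g0u) := by
          rw [← mul_assoc, e1, one_mul]
      _ ≤ _ := mul_le_mul_of_nonneg_left c1 e2
  unfold cE
  rw [Real.exp_add]
  calc g1u ≤ E * g0u := a1
    _ ≤ E * (q / (θ * (1 - Real.exp (-1))) * g0x) := mul_le_mul_of_nonneg_left d1 hE.le
    _ ≤ E * (q / (θ * (1 - Real.exp (-1))) * (Real.exp Δ * g1x)) := by
        apply mul_le_mul_of_nonneg_left _ hE.le
        apply mul_le_mul_of_nonneg_left b2
        positivity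
    _ = _ := by ring

end Pool.Agent.W274.NW
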